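import Pool.Agent.Helper75.PZ.Stmts2

set_option autoImplicit false

universe u

open Module TensorProduct

namespace Pool.Agent.Helper75.PZ

theorem low_of (hSG : ST_SG.{u}) (hAC : ST_AC.{u}) (hPH : ST_PH.{u}) (hPSE : ST_PSE.{u})
    (hFX : ST_FX.{u}) (hALG : ST_ALG.{u}) (hCEN : ST_CEN.{u}) (hSIM : ST_SIM.{u})
    (hSY : ST_SY.{u}) (hLB : ST_LB.{u}) : ST_LOW.{u} := by
  intro F _ h2 h3 hζ
  obtain ⟨σ, hσ, hσ1⟩ := hSG F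
  obtain ⟨φ, hφ⟩ := hPH F (RatFunc F) σ
  obtain ⟨ψ, hψ⟩ := hPSE F (RatFunc F)
  obtain ⟨K, hK, hK6⟩ := hFX F (RatFunc F) σ φ h2 hφ hσ hσ1
  obtain ⟨A, iR, iA, E, Φ, hΦ, hΦK⟩ := hALG F (RatFunc F) σ φ ψ hφ hψ hσ K hK
  have hc : Algebra.IsCentral K A :=
    hCEN F (RatFunc F) σ φ ψ h2 hφ hψ hσ hσ1 K hK A E Φ hΦ hΦK
  obtain ⟨hs, hdim⟩ := hSIM F (RatFunc F) σ φ ψ hφ hψ hσ K hK6 A E Φ hΦ
  have hsym := hSY F (RatFunc F) σ φ ψ h2 hφ hψ hσ K hK A E Φ hΦ hΦK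
  refine ⟨K, inferInstance, inferInstance, A, iR, iA, hc, hs, hdim, ?_⟩
  intro L B iB1 iB2 hB1 hB2 hB3 hB4
  exact hLB F K A (RatFunc F) σ _ _ h2 h3 hζ (hAC F) hσ hsym L B iB1 iB2 hB1 hB2 hB3 hB4

end Pool.Agent.Helper75.PZ
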