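import Pool.Agent.Helper75.PZ.Stmts

set_option autoImplicit false

universe u

open Module TensorProduct

namespace Pool.Agent.Helper75.PZ

/-- Hahn series with exponents in pairs of integers -/
abbrev HS (M : Type u) [Field M] : Type u := HahnSeries G2 M

/-- the twisting automorphism, coefficientwise -/
def PHI {F M : Type u} [Field F] [Field M] [Algebra F M] (σ : M ≃ₐ[F] M)
    (φ : HS M →ₐ[F] HS M) : Prop :=
  ∀ (h : HS M) (γ : G2), (φ h).coeff γ = (-1 : M) ^ (n2 γ) * σ (h.coeff γ)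

/-- the substitution multiplying the first exponent by six -/
def PSI {F M : Type u} [Field F] [Field M] [Algebra F M] (ψ : HS M →ₐ[F] HS M) : Prop :=
  (∀ (h : HS M) (γ γ' : G2), n1 γ' = 6 * n1 γ → n2 γ' = n2 γ → (ψ h).coeff γ' = h.coeff γ) ∧
  ∀ (h : HS M) (γ' : G2), ¬ (6 ∣ n1 γ') → (ψ h).coeff γ' = 0

/-- the variable of degree `(1, 0)` -/
noncomputable def XX (M : Type u) [Field M] : HS M :=
  HahnSeries.single (toLex ((1 : ℤ), (0 : ℤ))) (1 : M)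

/-- the twisted operators -/
noncomputable def op {F M : Type u} [Field F] [Field M] [Algebra F M]
    (φ ψ : HS M →ₐ[F] HS M) (e : Fin 6 → HS M) (f : HS M) : HS M :=
  ∑ l : Fin 6, ψ (e l) * XX M ^ (l : ℕ) * (φ^[(l : ℕ)]) f

/-- the automorphism of order three of the rational function field -/
def ST_SG : Prop := ∀ (F : Type u) [Field F],
  ∃ σ : RatFunc F ≃ₐ[F] RatFunc F, (∀ m, σ (σ (σ m)) = m) ∧ ∃ m, σ m ≠ m

/-- the base field is algebraically closed in the rational function field -/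
def ST_AC : Prop := ∀ (F : Type u) [Field F] (m : RatFunc F), IsAlgebraic F m →
  ∃ r : F, m = algebraMap F (RatFunc F) r

/-- existence of the twist -/
def ST_PH : Prop := ∀ (F M : Type u) [Field F] [Field M] [Algebra F M] (σ : M ≃ₐ[F] M),
  ∃ φ : HS M →ₐ[F] HS M, PHI σ φ

/-- existence of the substitution -/
def ST_PSE : Prop := ∀ (F M : Type u) [Field F] [Field M] [Algebra F M],
  ∃ ψ : HS M →ₐ[F] HS M, PSI ψ

/-- leading terms of the operators -/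
def ST_GD : Prop := ∀ (F M : Type u) [Field F] [Field M] [Algebra F M] (σ : M ≃ₐ[F] M)
  (φ ψ : HS M →ₐ[F] HS M), PHI σ φ → PSI ψ → (∀ m, σ (σ (σ m)) = m) →
  ∀ e : Fin 6 → HS M, e ≠ 0 → ∀ f : HS M, f ≠ 0 →
    op φ ψ e f ≠ 0 ∧ (op φ ψ e f).order = (op φ ψ e 1).order + f.order ∧
    (op φ ψ e f).leadingCoeff = (op φ ψ e 1).leadingCoeff *
      (-1 : M) ^ (n1 ((op φ ψ e 1).order) * n2 (f.order)) *
      (σ ^ (n1 ((op φ ψ e 1).order))) f.leadingCoeff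

/-- the operators are closed under composition -/
def ST_OM : Prop := ∀ (F M : Type u) [Field F] [Field M] [Algebra F M] (σ : M ≃ₐ[F] M)
  (φ ψ : HS M →ₐ[F] HS M), PHI σ φ → PSI ψ → (∀ m, σ (σ (σ m)) = m) →
  ∀ e e' : Fin 6 → HS M, ∃ e'' : Fin 6 → HS M, ∀ f, op φ ψ e (op φ ψ e' f) = op φ ψ e'' f

/-- the fixed field has codimension six -/
def ST_FX : Prop := ∀ (F M : Type u) [Field F] [Field M] [Algebra F M] (σ : M ≃ₐ[F] M)
  (φ : HS M →ₐ[F] HS M), (2 : F) ≠ 0 → PHI σ φ → (∀ m, σ (σ (σ m)) = m) → (∃ m, σ m ≠ m) →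
  ∃ K : IntermediateField F (HS M), (∀ h, h ∈ K ↔ φ h = h) ∧ finrank K (HS M) = 6

/-- the algebra of the operators -/
def ST_ALG : Prop := ∀ (F M : Type u) [Field F] [Field M] [Algebra F M] (σ : M ≃ₐ[F] M)
  (φ ψ : HS M →ₐ[F] HS M), PHI σ φ → PSI ψ → (∀ m, σ (σ (σ m)) = m) →
  ∀ K : IntermediateField F (HS M), (∀ h, h ∈ K ↔ φ h = h) →
  ∃ (A : Type u) (_ : Ring A) (_ : Algebra K A) (E : A ≃ₗ[K] (Fin 6 → HS M))
    (Φ : A →+* Module.End F (HS M)),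
    (∀ a f, Φ a f = op φ ψ (E a) f) ∧ ∀ (k : K) (f : HS M), Φ (algebraMap K A k) f = ψ k * f

/-- the centre -/
def ST_CEN : Prop := ∀ (F M : Type u) [Field F] [Field M] [Algebra F M] (σ : M ≃ₐ[F] M)
  (φ ψ : HS M →ₐ[F] HS M), (2 : F) ≠ 0 → PHI σ φ → PSI ψ → (∀ m, σ (σ (σ m)) = m) →
  (∃ m, σ m ≠ m) → ∀ K : IntermediateField F (HS M), (∀ h, h ∈ K ↔ φ h = h) →
  ∀ (A : Type u) [Ring A] [Algebra K A] (E : A ≃ₗ[K] (Fin 6 → HS M))
    (Φ : A →+* Module.End F (HS M)), (∀ a f, Φ a f = op φ ψ (E a) f) →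
    (∀ (k : K) (f : HS M), Φ (algebraMap K A k) f = ψ k * f) → Algebra.IsCentral K A

/-- simplicity -/
def ST_SIM : Prop := ∀ (F M : Type u) [Field F] [Field M] [Algebra F M] (σ : M ≃ₐ[F] M)
  (φ ψ : HS M →ₐ[F] HS M), PHI σ φ → PSI ψ → (∀ m, σ (σ (σ m)) = m) →
  ∀ K : IntermediateField F (HS M), finrank K (HS M) = 6 →
  ∀ (A : Type u) [Ring A] [Algebra K A] (E : A ≃ₗ[K] (Fin 6 → HS M))
    (Φ : A →+* Module.End F (HS M)), (∀ a f, Φ a f = op φ ψ (E a) f) →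
    IsSimpleRing A ∧ finrank K A = 36

/-- the leading symbols -/
def ST_SY : Prop := ∀ (F M : Type u) [Field F] [Field M] [Algebra F M] (σ : M ≃ₐ[F] M)
  (φ ψ : HS M →ₐ[F] HS M), (2 : F) ≠ 0 → PHI σ φ → PSI ψ → (∀ m, σ (σ (σ m)) = m) →
  ∀ K : IntermediateField F (HS M), (∀ h, h ∈ K ↔ φ h = h) →
  ∀ (A : Type u) [Ring A] [Algebra K A] (E : A ≃ₗ[K] (Fin 6 → HS M))
    (Φ : A →+* Module.End F (HS M)), (∀ a f, Φ a f = op φ ψ (E a) f) →
    (∀ (k : K) (f : HS M), Φ (algebraMap K A k) f = ψ k * f) →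
    SYM (K := K) σ (fun a => (Φ a 1).order) (fun a => (Φ a 1).leadingCoeff)

/-- **the lower bound in degree six** -/
def ST_LOW : Prop := ∀ (F : Type u) [Field F], (2 : F) ≠ 0 → (3 : F) ≠ 0 →
  (∀ ζ : F, ζ ^ 2 + ζ + 1 ≠ 0) →
  ∃ (K : Type u) (_ : Field K) (_ : Algebra F K) (A : Type u) (_ : Ring A) (_ : Algebra K A),
    Algebra.IsCentral K A ∧ IsSimpleRing A ∧ finrank K A = 36 ∧
    ∀ (L : IntermediateField F K) (B : Type u) (_ : Ring B) (_ : Algebra L B),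
      Algebra.IsCentral L B → IsSimpleRing B → finrank L B = 36 →
      Nonempty ((K ⊗[L] B) ≃ₐ[K] A) → 3 ≤ Algebra.trdeg F L

end Pool.Agent.Helper75.PZ
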