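import Pool.Agent.Helper75.PY.M6c
import Pool.Agent.Helper75.PZ.Stmts2

set_option autoImplicit false

universe u

open Module TensorProduct

namespace Pool.Agent.Helper75.PZ

open Pool.Agent.Helper75.PX Pool.Agent.Helper75.PY

/-- degree six, characteristic not two or three, a cube root of unity in `F` -/
theorem m6z_of (hQ4 : ST_Q4.{u}) (hC3 : ST_C3.{u}) (hB2 : ST_B2.{u}) (hB3 : ST_B3.{u})
    (hSC2 : ST_SC2.{u}) (hSC3 : ST_SC3.{u}) (hCL2 : ST_CL2.{u}) (hCL3 : ST_CL3.{u})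
    (hDESC : ST_DESC.{u}) (hTCS : ST_TCS.{u}) (hT6 : ST_T6.{u}) (hPD6 : ST_PD6t.{u})
    (F K A : Type u) [Field F] [Field K] [Algebra F K]
    [Ring A] [Algebra K A] [Algebra.IsCentral K A] [IsSimpleRing A]
    (h2F : (2 : F) ≠ 0) (h3F : (3 : F) ≠ 0) (hF : ∃ ζ : F, ζ ^ 2 + ζ + 1 = 0)
    (hA : finrank K A = 36) :
    ∃ (L : IntermediateField F K) (B : Type u) (_ : Ring B) (_ : Algebra L B),
      Algebra.trdeg F L ≤ 2 ∧ Algebra.IsCentral L B ∧ IsSimpleRing B ∧ finrank L B = 36 ∧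
      Nonempty ((K ⊗[L] B) ≃ₐ[K] A) := by
  have h2 : (2 : K) ≠ 0 := by
    intro h; apply h2F; apply (algebraMap F K).injective; rw [map_ofNat, map_zero]; exact h
  have h3 : (3 : K) ≠ 0 := by
    intro h; apply h3F; apply (algebraMap F K).injective; rw [map_ofNat, map_zero]; exact h
  obtain ⟨ζ₀, hζ₀⟩ := hF
  have hζ : (algebraMap F K ζ₀) ^ 2 + algebraMap F K ζ₀ + 1 = 0 := by
    rw [← map_pow, ← map_add, ← map_one (algebraMap F K), ← map_add, hζ₀, map_zero]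
  obtain ⟨A₂, A₃, _, _, _, _, _, _, _, _, h4, h9, ⟨eA⟩⟩ := hPD6 K A hA
  have : FiniteDimensional K A₂ := FiniteDimensional.of_finrank_pos (by omega)
  have : FiniteDimensional K A₃ := FiniteDimensional.of_finrank_pos (by omega)
  obtain ⟨g₀, k₀, a₀, b₀, hi, hj, hij, ha0, hb0⟩ := hQ4 K A₂ h4 h2
  have h20 : D2 g₀ k₀ a₀ b₀ := ⟨hi, hj, hij, ha0, hb0⟩
  obtain ⟨i₀, j₀, c₀, d₀, h30⟩ := hC3 K A₃ (algebraMap F K ζ₀) h9 h3 hζ
  have hl : c₀ / a₀ ≠ 0 := div_ne_zero h30.c0 ha0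
  have hm : d₀ / b₀ ≠ 0 := div_ne_zero h30.d0 hb0
  set l : K := c₀ / a₀ with hldef
  set m : K := d₀ / b₀ with hmdef
  have hq := hSC2 K A₂ g₀ k₀ a₀ b₀ (l ^ 2) (m ^ 2) (pow_ne_zero 2 hl) (pow_ne_zero 2 hm) h20
  have h3' := hSC3 K A₃ (algebraMap F K ζ₀) i₀ j₀ c₀ d₀ l m hl hm h30
  have hc0 : c₀ = l * a₀ := by rw [hldef]; field_simp
  have hd0 : d₀ = m * b₀ := by rw [hmdef]; field_simp
  have hc : c₀ * l ^ 3 = a₀ * (l ^ 2) ^ 2 := by rw [hc0]; ring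
  have hd : d₀ * m ^ 3 = b₀ * (m ^ 2) ^ 2 := by rw [hd0]; ring
  rw [hc, hd] at h3'
  clear_value l m
  revert hq h3'
  generalize l ^ 2 • g₀ = g
  generalize m ^ 2 • k₀ = k
  generalize l • i₀ = i
  generalize m • j₀ = j
  generalize a₀ * (l ^ 2) ^ 2 = a
  generalize b₀ * (m ^ 2) ^ 2 = b
  intro hq h3'
  have htr := adj2 hT6 F K a b
  set L : IntermediateField F K :=
    IntermediateField.adjoin F ((∅ ∪ {a}) ∪ {b} : Set K) with hL
  have hsub : ((∅ ∪ {a}) ∪ {b} : Set K) ⊆ (L : Set K) :=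
    IntermediateField.subset_adjoin F _
  have haL : a ∈ L := hsub (by simp)
  have hbL : b ∈ L := hsub (by simp)
  have hζL : algebraMap F K ζ₀ ∈ L := L.algebraMap_mem ζ₀
  clear_value L
  obtain ⟨B, iB1, iB2, hB1, hB2, hB3, ⟨hB4⟩⟩ := descTensor hDESC hTCS L _ _ (e2q g k)
    (e3 i j) (hB2 K A₂ g k a b h2 hq) (hB3 K A₃ (algebraMap F K ζ₀) i j _ _ h3 hζ h3')
    (by rw [h4]; simp) (by rw [h9]; simp)
    (Submodule.subset_span ⟨(0, 0), by simp [e2q]⟩)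
    (Submodule.subset_span ⟨(0, 0), by simp [e3]⟩)
    (hCL2 F K A₂ L g k a b hq haL hbL)
    (hCL3 F K A₃ L (algebraMap F K ζ₀) i j _ _ h3' hζL hζ haL hbL)
  exact ⟨L, B, iB1, iB2, htr, hB1, hB2, by rw [hB3, h4, h9], ⟨hB4.trans eA.symm⟩⟩

/-- every central simple algebra of dimension 36 over every extension of `F` is defined over an
intermediate field of transcendence degree at most `n` -/
def DESC6 (F : Type u) [Field F] (n : ℕ) : Prop :=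
  ∀ (K A : Type u) [Field K] [Algebra F K]
    [Ring A] [Algebra K A] [Algebra.IsCentral K A] [IsSimpleRing A], finrank K A = 36 →
    ∃ (L : IntermediateField F K) (B : Type u) (_ : Ring B) (_ : Algebra L B),
      Algebra.trdeg F L ≤ (n : Cardinal.{u}) ∧ Algebra.IsCentral L B ∧ IsSimpleRing B ∧
      finrank L B = 36 ∧ Nonempty ((K ⊗[L] B) ≃ₐ[K] A)

/-- degree six over every field -/
theorem ans_of (hM6 : ST_M6.{u}) (hM6c : ST_M6c.{u}) (hLOW : ST_LOW.{u})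
    (hM6z : ∀ (F K A : Type u) [Field F] [Field K] [Algebra F K]
      [Ring A] [Algebra K A] [Algebra.IsCentral K A] [IsSimpleRing A]
      (_ : (2 : F) ≠ 0) (_ : (3 : F) ≠ 0) (_ : ∃ ζ : F, ζ ^ 2 + ζ + 1 = 0)
      (_ : finrank K A = 36),
      ∃ (L : IntermediateField F K) (B : Type u) (_ : Ring B) (_ : Algebra L B),
        Algebra.trdeg F L ≤ 2 ∧ Algebra.IsCentral L B ∧ IsSimpleRing B ∧ finrank L B = 36 ∧
        Nonempty ((K ⊗[L] B) ≃ₐ[K] A))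
    (F : Type u) [Field F] :
    DESC6 F 3 ∧ (DESC6 F 2 ↔ ((2 : F) = 0 ∨ (3 : F) = 0 ∨ ∃ ζ : F, ζ ^ 2 + ζ + 1 = 0)) := by
  have h6 : (6 : F) = 2 * 3 := by norm_num
  have h23 : ((2 : ℕ) : Cardinal.{u}) ≤ ((3 : ℕ) : Cardinal.{u}) := Nat.cast_le.2 (by norm_num)
  have hback : ((2 : F) = 0 ∨ (3 : F) = 0 ∨ ∃ ζ : F, ζ ^ 2 + ζ + 1 = 0) → DESC6 F 2 := by
    intro h K A _ _ _ _ _ _ hA
    by_cases h2 : (2 : F) = 0
    · obtain ⟨L, B, iB1, iB2, hB0, hB⟩ := hM6c F K A (by rw [h6, h2, zero_mul]) hA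
      exact ⟨L, B, iB1, iB2, by simpa using hB0, hB⟩
    by_cases h3 : (3 : F) = 0
    · obtain ⟨L, B, iB1, iB2, hB0, hB⟩ := hM6c F K A (by rw [h6, h3, mul_zero]) hA
      exact ⟨L, B, iB1, iB2, by simpa using hB0, hB⟩
    have hz : ∃ ζ : F, ζ ^ 2 + ζ + 1 = 0 := by
      rcases h with h | h | h
      · exact absurd h h2
      · exact absurd h h3
      · exact h
    obtain ⟨L, B, iB1, iB2, hB0, hB⟩ := hM6z F K A h2 h3 hz hA
    exact ⟨L, B, iB1, iB2, by simpa using hB0, hB⟩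
  refine ⟨?_, ?_, hback⟩
  · by_cases h : (2 : F) = 0 ∨ (3 : F) = 0
    · have h' : (2 : F) = 0 ∨ (3 : F) = 0 ∨ ∃ ζ : F, ζ ^ 2 + ζ + 1 = 0 := by
        rcases h with h | h
        · exact Or.inl h
        · exact Or.inr (Or.inl h)
      intro K A _ _ _ _ _ _ hA
      obtain ⟨L, B, iB1, iB2, hB0, hB⟩ := hback h' K A hA
      exact ⟨L, B, iB1, iB2, hB0.trans h23, hB⟩
    · rw [not_or] at h
      intro K A _ _ _ _ _ _ hA
      obtain ⟨L, B, iB1, iB2, hB0, hB⟩ := hM6 F K A h.1 h.2 hA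
      exact ⟨L, B, iB1, iB2, by simpa using hB0, hB⟩
  · intro hD
    by_contra hc
    simp only [not_or, not_exists] at hc
    obtain ⟨K, iK, iFK, A, iA, iKA, hc1, hc2, hc3, hc4⟩ := hLOW F hc.1 hc.2.1 hc.2.2
    obtain ⟨L, B, iB1, iB2, hB0, hB1, hB2, hB3, hB4⟩ := hD K A hc3
    have h3 := hc4 L B iB1 iB2 hB1 hB2 hB3 hB4
    have h32 : (3 : Cardinal.{u}) ≤ ((2 : ℕ) : Cardinal.{u}) := h3.trans hB0
    have h32' : ((3 : ℕ) : Cardinal.{u}) ≤ ((2 : ℕ) : Cardinal.{u}) := by simpa using h32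
    rw [Nat.cast_le] at h32'
    omega

end Pool.Agent.Helper75.PZ
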