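import Pool.Agent.Helper75.PY.Hand2
import Pool.Agent.Helper75.PZ.Low
import Pool.Agent.Helper75.PZ.M6z
import Pool.Agent.Helper77.PZ.AN
import Pool.Agent.Helper34.PZ.CU
import Pool.Agent.Helper9.PZ.NZK
import Pool.Agent.Helper51.PZ.AB
import Pool.Agent.Helper17.PZ.TD
import Pool.Agent.Helper70.PZ.LB
import Pool.Agent.Helper9.PZ.SG
import Pool.Agent.Helper78.PZ.PH
import Pool.Agent.Helper11.PZ.PSE
import Pool.Agent.Helper94.PZ.GD
import Pool.Agent.Helper49.PZ.OM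
import Pool.Agent.Helper99.PZ.FX
import Pool.Agent.Helper43.PZ.ALG
import Pool.Agent.Helper35.PZ.CEN
import Pool.Agent.Helper37.PZ.SIM
import Pool.Agent.Helper39.PZ.SY

set_option autoImplicit false

universe u

open Module TensorProduct

namespace Pool.Agent.Helper75.PZ

open Pool.Agent.Helper75.PX Pool.Agent.Helper75.PY

theorem hand_LB : ST_LB.{u} :=
  Pool.Agent.Helper70.PZ.st_LB (st_Q4 st_WA (st_MPD st_SIMP) st_MDV) hand_C3c hand_PD6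
    Pool.Agent.Helper77.PZ.st_AN Pool.Agent.Helper34.PZ.st_CU Pool.Agent.Helper9.PZ.st_NZK
    Pool.Agent.Helper51.PZ.st_AB Pool.Agent.Helper17.PZ.st_TD

theorem low_rows (hSIM : ST_SIM.{u}) (hSY : ST_SY.{u}) : ST_LOW.{u} :=
  low_of Pool.Agent.Helper9.PZ.st_SG Pool.Agent.Helper9.PZ.st_AC Pool.Agent.Helper78.PZ.st_PH
    Pool.Agent.Helper11.PZ.st_PSE Pool.Agent.Helper99.PZ.st_FX
    (Pool.Agent.Helper43.PZ.st_ALG Pool.Agent.Helper94.PZ.st_GD Pool.Agent.Helper49.PZ.st_OM)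
    (Pool.Agent.Helper35.PZ.st_CEN Pool.Agent.Helper94.PZ.st_GD) hSIM hSY hand_LB

theorem ans_rows (hLOW : ST_LOW.{u}) (F : Type u) [Field F] :
    DESC6 F 3 ∧ (DESC6 F 2 ↔ ((2 : F) = 0 ∨ (3 : F) = 0 ∨ ∃ ζ : F, ζ ^ 2 + ζ + 1 = 0)) := by
  have hTCS : ST_TCS.{u} := Pool.Agent.Helper2.PX.st_TCS st_SIMP
  exact ans_of st_M6 st_M6c hLOW
    (m6z_of (st_Q4 st_WA (st_MPD st_SIMP) st_MDV) hand_C3 st_B2 st_B3 st_SC2 st_SC3 st_CL2
      st_CL3 st_DESC hTCS st_T6 hand_PD6t) F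

/-- the lower bound -/
theorem hand_LOW : ST_LOW.{u} :=
  low_rows (Pool.Agent.Helper37.PZ.st_SIM Pool.Agent.Helper94.PZ.st_GD)
    (Pool.Agent.Helper39.PZ.st_SY Pool.Agent.Helper94.PZ.st_GD)

/-- degree six over every field -/
theorem hand_ANS (F : Type u) [Field F] :
    DESC6 F 3 ∧ (DESC6 F 2 ↔ ((2 : F) = 0 ∨ (3 : F) = 0 ∨ ∃ ζ : F, ζ ^ 2 + ζ + 1 = 0)) :=
  ans_rows hand_LOW F

end Pool.Agent.Helper75.PZ
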