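import Pool.Agent.Helper75.PX.Stmts3

set_option autoImplicit false

universe u

open Module TensorProduct

namespace Pool.Agent.Helper75.PZ

open Pool.Agent.Helper75.PX

/-- the value group: pairs of integers, lexicographic order -/
abbrev G2 : Type := ℤ ×ₗ ℤ

/-- first coordinate -/
def n1 (g : G2) : ℤ := (ofLex g).1

/-- second coordinate -/
def n2 (g : G2) : ℤ := (ofLex g).2

/-- leading symbols on a ring `A` over `K`: degree `g x` and leading coefficient `c x` in `M` of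
every `x ≠ 0`, multiplied in a twisted way -/
structure SYM {F K A M : Type*} [Field F] [Field K] [Field M] [Ring A] [Algebra F K]
    [Algebra K A] [Algebra F M] (σ : M ≃ₐ[F] M) (g : A → G2) (c : A → M) : Prop where
  c0 : ∀ x, x ≠ 0 → c x ≠ 0
  mul0 : ∀ x y, x ≠ 0 → y ≠ 0 → x * y ≠ 0
  gmul : ∀ x y, x ≠ 0 → y ≠ 0 → g (x * y) = g x + g y
  cmul : ∀ x y, x ≠ 0 → y ≠ 0 →
    c (x * y) = c x * (-1 : M) ^ (n1 (g x) * n2 (g y)) * (σ ^ (n1 (g x))) (c y)
  addlt : ∀ x y, x ≠ 0 → y ≠ 0 → g x < g y → x + y ≠ 0 ∧ g (x + y) = g x ∧ c (x + y) = c x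
  addeq : ∀ x y, x ≠ 0 → y ≠ 0 → g x = g y → c x + c y ≠ 0 →
    x + y ≠ 0 ∧ g (x + y) = g x ∧ c (x + y) = c x + c y
  addz : ∀ x y, x ≠ 0 → y ≠ 0 → g x = g y → c x + c y = 0 → x + y = 0 ∨ g x < g (x + y)
  fs : ∀ r : F, r ≠ 0 → g (algebraMap K A (algebraMap F K r)) = 0 ∧
    c (algebraMap K A (algebraMap F K r)) = algebraMap F M r
  ks : ∀ k : K, k ≠ 0 → 6 ∣ n1 (g (algebraMap K A k)) ∧ 2 ∣ n2 (g (algebraMap K A k)) ∧
    σ (c (algebraMap K A k)) = c (algebraMap K A k)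

/-- anticommuting elements have degrees with odd determinant -/
def ST_AN : Prop := ∀ (F K A M : Type u) [Field F] [Field K] [Field M] [Ring A] [Nontrivial A]
  [Algebra F K] [Algebra K A] [Algebra F M] (σ : M ≃ₐ[F] M) (g : A → G2) (c : A → M),
  (2 : F) ≠ 0 → (∀ m, σ (σ (σ m)) = m) → SYM (K := K) σ g c → ∀ i j : A, i ≠ 0 → j ≠ 0 →
  i * j = -(j * i) → Odd (n1 (g i) * n2 (g j) - n1 (g j) * n2 (g i))

/-- the parameter of a cyclic cubic algebra has transcendental residue -/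
def ST_CU : Prop := ∀ (F K A M : Type u) [Field F] [Field K] [Field M] [Ring A] [Nontrivial A]
  [Algebra F K] [Algebra K A] [Algebra F M] (σ : M ≃ₐ[F] M) (g : A → G2) (c : A → M),
  (∀ ζ : F, ζ ^ 2 + ζ + 1 ≠ 0) → (∀ m : M, IsAlgebraic F m → ∃ r : F, m = algebraMap F M r) →
  (∀ m, σ (σ (σ m)) = m) → SYM (K := K) σ g c → ∀ (y w : A) (s e : K), D3c y w s e →
  s ≠ 0 ∧ g (algebraMap K A s) = 0 ∧ Transcendental F (c (algebraMap K A s))

/-- no cube roots of unity in the centre -/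
def ST_NZK : Prop := ∀ (F K A M : Type u) [Field F] [Field K] [Field M] [Ring A] [Nontrivial A]
  [Algebra F K] [Algebra K A] [Algebra F M] (σ : M ≃ₐ[F] M) (g : A → G2) (c : A → M),
  (∀ ζ : F, ζ ^ 2 + ζ + 1 ≠ 0) → (∀ m : M, IsAlgebraic F m → ∃ r : F, m = algebraMap F M r) →
  (∀ m, σ (σ (σ m)) = m) → SYM (K := K) σ g c → ∀ ζ : K, ζ ^ 2 + ζ + 1 ≠ 0

/-- independent degrees and a transcendental residue give three independent elements -/
def ST_AB : Prop := ∀ (F K A M : Type u) [Field F] [Field K] [Field M] [Ring A] [Nontrivial A]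
  [Algebra F K] [Algebra K A] [Algebra F M] (σ : M ≃ₐ[F] M) (g : A → G2) (c : A → M),
  (∀ m, σ (σ (σ m)) = m) → SYM (K := K) σ g c → ∀ x₁ x₂ x₃ : K, x₁ ≠ 0 → x₂ ≠ 0 → x₃ ≠ 0 →
  n1 (g (algebraMap K A x₁)) * n2 (g (algebraMap K A x₂)) -
    n1 (g (algebraMap K A x₂)) * n2 (g (algebraMap K A x₁)) ≠ 0 →
  g (algebraMap K A x₃) = 0 → Transcendental F (c (algebraMap K A x₃)) →
  AlgebraicIndependent F ![x₁, x₂, x₃]

/-- three independent elements -/
def ST_TD : Prop := ∀ (F K : Type u) [Field F] [Field K] [Algebra F K] (L : IntermediateField F K)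
  (x₁ x₂ x₃ : K), x₁ ∈ L → x₂ ∈ L → x₃ ∈ L → AlgebraicIndependent F ![x₁, x₂, x₃] →
  3 ≤ Algebra.trdeg F L

/-- **the lower bound from leading symbols** -/
def ST_LB : Prop := ∀ (F K A M : Type u) [Field F] [Field K] [Field M] [Ring A]
  [Algebra F K] [Algebra K A] [Algebra F M] [Algebra.IsCentral K A] [IsSimpleRing A]
  (σ : M ≃ₐ[F] M) (g : A → G2) (c : A → M),
  (2 : F) ≠ 0 → (3 : F) ≠ 0 → (∀ ζ : F, ζ ^ 2 + ζ + 1 ≠ 0) →
  (∀ m : M, IsAlgebraic F m → ∃ r : F, m = algebraMap F M r) →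
  (∀ m, σ (σ (σ m)) = m) → SYM (K := K) σ g c →
  ∀ (L : IntermediateField F K) (B : Type u) (_ : Ring B) (_ : Algebra L B),
    Algebra.IsCentral L B → IsSimpleRing B → finrank L B = 36 →
    Nonempty ((K ⊗[L] B) ≃ₐ[K] A) → 3 ≤ Algebra.trdeg F L

end Pool.Agent.Helper75.PZ
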